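import Pool.Agent.T9h94.CZ.Last
import Pool.Agent.T9h89.CZ.Triv

set_option autoImplicit false

/-! # Direct products of centreless directly indecomposable groups -/

namespace Pool.Agent.T9h94.PI

open Pool.Agent.T9h94.CZ Pool.Agent.H67R3.CondDefs

variable {ι : Type} [Fintype ι] [DecidableEq ι] {G : ι → Type} [∀ i, Group (G i)] {n : ι → ℕ}

/-- the letters of the product -/
abbrev Idx (n : ι → ℕ) : Type := Σ i, Fin (n i)

/-- product marking -/
def mk (X : ∀ i, Fin (n i) → G i) : Idx n → (∀ i, G i) := fun a => Pi.mulSingle a.1 (X a.1 a.2)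

/-- inclusion of words -/
def inj (n : ι → ℕ) (i : ι) : FreeGroup (Fin (n i)) →* FreeGroup (Idx n) :=
  FreeGroup.lift (fun j => FreeGroup.of ⟨i, j⟩)

/-- projection of words -/
def pro (n : ι → ℕ) (i : ι) : FreeGroup (Idx n) →* FreeGroup (Fin (n i)) :=
  FreeGroup.lift (fun a => if h : a.1 = i then FreeGroup.of (h ▸ a.2) else 1)

omit [Fintype ι] in
theorem pro_inj (i : ι) (w : FreeGroup (Fin (n i))) : pro n i (inj n i w) = w := by
  have : (pro n i).comp (inj n i) = MonoidHom.id _ := by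
    apply FreeGroup.ext_hom
    intro j
    simp [pro, inj]
  exact DFunLike.congr_fun this w

omit [Fintype ι] in
theorem pro_inj_ne {i l : ι} (h : i ≠ l) (w : FreeGroup (Fin (n i))) : pro n l (inj n i w) = 1 := by
  have : (pro n l).comp (inj n i) = 1 := by
    apply FreeGroup.ext_hom
    intro j
    simp [pro, inj, h]
  exact DFunLike.congr_fun this w

omit [Fintype ι] in
theorem lift_mk (X : ∀ i, Fin (n i) → G i) (w : FreeGroup (Idx n)) (i : ι) :
    FreeGroup.lift (mk X) w i = FreeGroup.lift (X i) (pro n i w) := by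
  have : (Pi.evalMonoidHom G i).comp (FreeGroup.lift (mk X)) =
      (FreeGroup.lift (X i)).comp (pro n i) := by
    apply FreeGroup.ext_hom
    rintro ⟨l, j⟩
    by_cases h : l = i
    · subst h
      simp [mk, pro]
    · simp [mk, pro, h, Pi.mulSingle_eq_of_ne (Ne.symm h)]
  exact DFunLike.congr_fun this w

omit [Fintype ι] in
theorem lift_mk_one (X : ∀ i, Fin (n i) → G i) (w : FreeGroup (Idx n)) :
    FreeGroup.lift (mk X) w = 1 ↔ ∀ i, FreeGroup.lift (X i) (pro n i w) = 1 := by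
  rw [funext_iff]
  exact forall_congr' fun i => by rw [lift_mk]; rfl

omit [Fintype ι] in
theorem lift_mk_inj (X : ∀ i, Fin (n i) → G i) (i : ι) (w : FreeGroup (Fin (n i))) :
    FreeGroup.lift (mk X) (inj n i w) = Pi.mulSingle i (FreeGroup.lift (X i) w) := by
  funext l
  rw [lift_mk]
  by_cases h : i = l
  · subst h
    rw [pro_inj, Pi.mulSingle_eq_same]
  · rw [pro_inj_ne h, map_one, Pi.mulSingle_eq_of_ne (Ne.symm h)]

theorem gen_mk {X : ∀ i, Fin (n i) → G i} (hX : ∀ i, Gen (X i)) : Gen (mk X) := by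
  intro g
  have : g ∈ (FreeGroup.lift (mk X)).range := by
    apply Subgroup.pi_mem_of_mulSingle_mem
    intro i
    obtain ⟨w, hw⟩ := hX i (g i)
    exact ⟨inj n i w, by rw [lift_mk_inj, hw]⟩
  exact this

/-- `Z'` maps the letters of the factor `i` into the factor `σ i`. -/
def Ad (Z' : Idx n → (∀ i, G i)) (σ : Equiv.Perm ι) : Prop :=
  ∀ a l, l ≠ σ a.1 → Z' a l = 1

/-- realised permutations -/
def Real (X : ∀ i, Fin (n i) → G i) (σ : Equiv.Perm ι) : Prop :=
  ∀ B : Set (FreeGroup (Idx n)), B.Finite → ∃ Z' : Idx n → (∀ i, G i),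
    Gen Z' ∧ Close B (mk X) Z' ∧ Differ (mk X) Z' ∧ Ad Z' σ

omit [Fintype ι] [DecidableEq ι] in
theorem ad_inj {Z' : Idx n → (∀ i, G i)} {σ : Equiv.Perm ι} (h : Ad Z' σ) (i l : ι)
    (hl : l ≠ σ i) (w : FreeGroup (Fin (n i))) : FreeGroup.lift Z' (inj n i w) l = 1 := by
  have : ((Pi.evalMonoidHom G l).comp (FreeGroup.lift Z')).comp (inj n i) = 1 := by
    apply FreeGroup.ext_hom
    intro j
    simp [inj, h ⟨i, j⟩ l hl]
  exact DFunLike.congr_fun this w

theorem real_mul (X : ∀ i, Fin (n i) → G i) (hX : ∀ i, Gen (X i)) {σ ρ : Equiv.Perm ι}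
    (h1 : Real X σ) (h2 : Real X ρ) : Real X (ρ * σ) := by
  intro B hB
  obtain ⟨Z', hG', hC', ⟨w₁, hD'⟩, hA'⟩ := h1 B hB
  choose v hv using fun a : Idx n => hX (σ a.1) (Z' a (σ a.1))
  let V : Idx n → FreeGroup (Idx n) := fun a => inj n (σ a.1) (v a)
  have hV : ∀ a, FreeGroup.lift (mk X) (V a) = Z' a := by
    intro a
    show FreeGroup.lift (mk X) (inj n (σ a.1) (v a)) = Z' a
    rw [lift_mk_inj, hv]
    funext l
    by_cases h : l = σ a.1
    · subst h
      rw [Pi.mulSingle_eq_same]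
    · rw [Pi.mulSingle_eq_of_ne h, hA' a l h]
  choose U hU using fun a => hG' (mk X a)
  have hZV : ∀ w, FreeGroup.lift Z' w = FreeGroup.lift (mk X) (FreeGroup.lift V w) := by
    intro w
    rw [← lift_lift]
    congr 2
    funext j
    exact (hV j).symm
  let B'' : Set (FreeGroup (Idx n)) := (FreeGroup.lift V '' B) ∪ {FreeGroup.lift V w₁} ∪
    Set.range (fun j => (FreeGroup.of j)⁻¹ * FreeGroup.lift V (U j))
  have hB'' : B''.Finite := ((hB.image _).union (Set.finite_singleton _)).union (Set.finite_range _)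
  obtain ⟨Z'', hG'', hC'', -, hA''⟩ := h2 B'' hB''
  let Z3 : Idx n → (∀ i, G i) := fun j => FreeGroup.lift Z'' (V j)
  have hZ3 : ∀ w, FreeGroup.lift Z3 w = FreeGroup.lift Z'' (FreeGroup.lift V w) := fun w =>
    lift_lift Z'' V w
  refine ⟨Z3, ?_, ?_, ⟨w₁, ?_⟩, ?_⟩
  · refine gen_of hG'' fun j => ⟨U j, ?_⟩
    have h1 : (FreeGroup.of j)⁻¹ * FreeGroup.lift V (U j) ∈ B'' := Or.inr ⟨j, rfl⟩
    have h2 : FreeGroup.lift (mk X) ((FreeGroup.of j)⁻¹ * FreeGroup.lift V (U j)) = 1 := by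
      rw [map_mul, map_inv, ← hZV, hU]
      simp
    have h3 := (hC'' _ h1).2 h2
    rw [map_mul, map_inv, ← hZ3, inv_mul_eq_one] at h3
    simpa using h3.symm
  · intro w hw
    rw [hZ3, hC'' _ (Or.inl (Or.inl ⟨w, hw, rfl⟩)), ← hZV]
    exact hC' w hw
  · intro h
    apply hD'
    rw [hZV, ← hC'' _ (Or.inl (Or.inr rfl)), ← hZ3]
    exact h
  · intro a l hl
    exact ad_inj hA'' (σ a.1) l hl (v a)

theorem real_pow (X : ∀ i, Fin (n i) → G i) (hX : ∀ i, Gen (X i)) {σ : Equiv.Perm ι}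
    (h : Real X σ) (k : ℕ) : Real X (σ ^ (k + 1)) := by
  induction k with
  | zero => simpa using h
  | succ k ih =>
    rw [pow_succ']
    exact real_mul X hX ih h

/-- near markings permute the factors -/
theorem exists_perm (X : ∀ i, Fin (n i) → G i) (hX : ∀ i, Gen (X i))
    (hP : ∀ i, Prim (G i)) (hN : ∀ i, Nontrivial (G i)) :
    ∃ B : Set (FreeGroup (Idx n)), B.Finite ∧ ∀ Z' : Idx n → (∀ i, G i), Gen Z' →
      Close B (mk X) Z' → ∃ σ : Equiv.Perm ι, Ad Z' σ := by
  have hj : ∀ i, ∃ j, X i j ≠ 1 := by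
    intro i
    by_contra hcon
    push Not at hcon
    obtain ⟨g, hg⟩ := exists_ne (1 : G i)
    obtain ⟨w, hw⟩ := hX i g
    apply hg
    rw [← hw]
    have : FreeGroup.lift (X i) = 1 := by
      apply FreeGroup.ext_hom
      intro j
      simp [hcon j]
    rw [this]; rfl
  choose j₀ hj₀ using hj
  refine ⟨Set.range (fun ab : Idx n × Idx n => FreeGroup.of ab.1 * FreeGroup.of ab.2 *
    (FreeGroup.of ab.1)⁻¹ * (FreeGroup.of ab.2)⁻¹) ∪
    Set.range (fun i => FreeGroup.of (⟨i, j₀ i⟩ : Idx n)),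
    (Set.finite_range _).union (Set.finite_range _), ?_⟩
  intro Z' hZ' hC
  have hcomm : ∀ a b : Idx n, a.1 ≠ b.1 → Commute (Z' a) (Z' b) := by
    intro a b hab
    have h6 := (hC _ (Or.inl ⟨(a, b), rfl⟩)).2 (by
      simp only [map_mul, map_inv, FreeGroup.lift_apply_of, mk]
      have : Commute (Pi.mulSingle a.1 (X a.1 a.2) : ∀ i, G i) (Pi.mulSingle b.1 (X b.1 b.2)) :=
        Pi.mulSingle_commute hab _ _
      rw [this.eq]
      group)
    simp only [map_mul, map_inv, FreeGroup.lift_apply_of] at h6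
    have := mul_inv_eq_one.1 h6
    rw [mul_inv_eq_iff_eq_mul] at this
    exact this
  have hne : ∀ i, Z' ⟨i, j₀ i⟩ ≠ 1 := by
    intro i h
    have h6 := (hC _ (Or.inr ⟨i, rfl⟩)).1 (by rw [FreeGroup.lift_apply_of]; exact h)
    rw [FreeGroup.lift_apply_of] at h6
    apply hj₀ i
    have := congrFun h6 i
    simpa [mk] using this
  -- the images in the factor `l`
  have hτ : ∀ l, ∃ i, ∀ a : Idx n, a.1 ≠ i → Z' a l = 1 := by
    intro l
    by_contra hcon
    push Not at hcon
    -- some letter is nontrivial at `l`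
    have hex : ∃ a : Idx n, Z' a l ≠ 1 := by
      by_contra hno
      push Not at hno
      obtain ⟨g, hg⟩ := exists_ne (1 : G l)
      obtain ⟨w, hw⟩ := hZ' (Pi.mulSingle l g)
      apply hg
      have h7 : (Pi.evalMonoidHom G l).comp (FreeGroup.lift Z') = 1 := by
        apply FreeGroup.ext_hom
        intro a
        simp [hno a]
      have h8 := DFunLike.congr_fun h7 w
      rw [MonoidHom.comp_apply, hw] at h8
      simpa using h8
    obtain ⟨a, ha⟩ := hex
    obtain ⟨b, hb1, hb2⟩ := hcon a.1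
    let A : Subgroup (G l) := Subgroup.closure {g | ∃ c : Idx n, c.1 = a.1 ∧ Z' c l = g}
    let B : Subgroup (G l) := Subgroup.closure {g | ∃ c : Idx n, c.1 ≠ a.1 ∧ Z' c l = g}
    have hAB : ∀ x ∈ A, ∀ y ∈ B, x * y = y * x := by
      intro x hx y hy
      have h9 : A ≤ Subgroup.centralizer (B : Set (G l)) := by
        show Subgroup.closure _ ≤ _
        rw [Subgroup.closure_le]
        rintro _ ⟨c, hc, rfl⟩
        show Z' c l ∈ Subgroup.centralizer (B : Set (G l))
        rw [Subgroup.mem_centralizer_iff]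
        have h10 : B ≤ Subgroup.centralizer {Z' c l} := by
          show Subgroup.closure _ ≤ _
          rw [Subgroup.closure_le]
          rintro _ ⟨d, hd, rfl⟩
          show Z' d l ∈ Subgroup.centralizer {Z' c l}
          rw [Subgroup.mem_centralizer_iff]
          rintro _ rfl
          exact congrFun (hcomm c d (by rw [hc]; exact Ne.symm hd)).eq l
        intro z hz
        exact ((Subgroup.mem_centralizer_iff.1 (h10 hz)) _ rfl).symm
      exact ((Subgroup.mem_centralizer_iff.1 (h9 hx)) y hy).symm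
    have htop : A ⊔ B = ⊤ := by
      rw [eq_top_iff]
      intro g _
      obtain ⟨w, hw⟩ := hZ' (Pi.mulSingle l g)
      have h11 : ∀ w, FreeGroup.lift Z' w l ∈ A ⊔ B := by
        intro w
        refine FreeGroup.induction_on w ?_ ?_ ?_ ?_
        · rw [map_one]; exact Subgroup.one_mem _
        · intro c
          have e1 : FreeGroup.lift Z' (FreeGroup.of c) = Z' c := FreeGroup.lift_apply_of
          show FreeGroup.lift Z' (FreeGroup.of c) l ∈ _
          rw [e1]
          by_cases hc : c.1 = a.1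
          · exact Subgroup.mem_sup_left (Subgroup.subset_closure ⟨c, hc, rfl⟩)
          · exact Subgroup.mem_sup_right (Subgroup.subset_closure ⟨c, hc, rfl⟩)
        · intro c hc
          rw [map_inv]; exact Subgroup.inv_mem _ hc
        · intro x y hx hy
          rw [map_mul]; exact Subgroup.mul_mem _ hx hy
      have h12 := h11 w
      rw [hw] at h12
      simpa using h12
    rcases hP l A B hAB htop with h | h
    · apply ha
      have h13 : Z' a l ∈ A := Subgroup.subset_closure ⟨a, rfl, rfl⟩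
      rw [h] at h13
      exact h13
    · apply hb2
      have h13 : Z' b l ∈ B := Subgroup.subset_closure ⟨b, hb1, rfl⟩
      rw [h] at h13
      exact h13
  choose τ hτ using hτ
  have hsurj : Function.Surjective τ := by
    intro i
    by_contra hno
    push Not at hno
    apply hne i
    funext l
    exact hτ l ⟨i, j₀ i⟩ (Ne.symm (hno l))
  have hbij : Function.Bijective τ := Finite.surjective_iff_bijective.1 hsurj
  refine ⟨(Equiv.ofBijective τ hbij).symm, ?_⟩
  intro a l hl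
  apply hτ l a
  intro h
  apply hl
  rw [h]
  exact ((Equiv.ofBijective τ hbij).symm_apply_apply l).symm

theorem real_one (X : ∀ i, Fin (n i) → G i) (hX : ∀ i, Gen (X i))
    (hP : ∀ i, Prim (G i)) (hN : ∀ i, Nontrivial (G i)) (hA : Acc (mk X)) : Real X 1 := by
  obtain ⟨B₀, hB₀, hperm⟩ := exists_perm X hX hP hN
  have hex : ∃ σ, Real X σ := by
    by_contra hno
    push Not at hno
    have hbad : ∀ σ : Equiv.Perm ι, ∃ B : Set (FreeGroup (Idx n)), B.Finite ∧
        ¬ ∃ Z' : Idx n → (∀ i, G i), Gen Z' ∧ Close B (mk X) Z' ∧ Differ (mk X) Z' ∧ Ad Z' σ := by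
      intro σ
      have := hno σ
      unfold Real at this
      push Not at this
      obtain ⟨B, hB, h⟩ := this
      exact ⟨B, hB, fun ⟨Z', h1, h2, h3, h4⟩ => h Z' h1 h2 h3 h4⟩
    choose B hB hno' using hbad
    obtain ⟨Z', hG, hC, hD⟩ := hA (B₀ ∪ ⋃ τ, B τ) (hB₀.union (Set.finite_iUnion hB))
    obtain ⟨σ, hσ⟩ := hperm Z' hG (fun w hw => hC w (Or.inl hw))
    exact hno' σ ⟨Z', hG, fun w hw => hC w (Or.inr (Set.mem_iUnion.2 ⟨_, hw⟩)), hD, hσ⟩
  obtain ⟨σ, hσ⟩ := hex
  have h2 := real_pow X hX hσ (orderOf σ - 1)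
  have h3 : orderOf σ - 1 + 1 = orderOf σ := Nat.sub_add_cancel (orderOf_pos σ)
  rwa [h3, pow_orderOf_eq_one] at h2

/-- some factor accumulates -/
theorem exists_acc (X : ∀ i, Fin (n i) → G i) (hX : ∀ i, Gen (X i))
    (hP : ∀ i, Prim (G i)) (hN : ∀ i, Nontrivial (G i)) (hA : Acc (mk X)) : ∃ i, Acc (X i) := by
  by_contra hno
  push Not at hno
  have hbad : ∀ i, ∃ B : Set (FreeGroup (Fin (n i))), B.Finite ∧
      ∀ X' : Fin (n i) → G i, Gen X' → Close B (X i) X' → ¬ Differ (X i) X' := by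
    intro i
    have := hno i
    unfold Pool.Agent.T9h94.CZ.Acc at this
    push Not at this
    exact this
  choose B hB hB' using hbad
  obtain ⟨Z', hG, hC, hD, hAd⟩ := real_one X hX hP hN hA (⋃ i, inj n i '' B i)
    (Set.finite_iUnion fun i => (hB i).image _)
  let X' : ∀ i, Fin (n i) → G i := fun i j => Z' ⟨i, j⟩ i
  have hZ' : Z' = mk X' := by
    funext a l
    by_cases h : l = a.1
    · subst h
      simp [mk, X']
    · rw [hAd a l h]
      simp [mk, Pi.mulSingle_eq_of_ne h]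
  have hX' : ∀ i, Gen (X' i) := by
    intro i g
    obtain ⟨w, hw⟩ := hG (Pi.mulSingle i g)
    refine ⟨pro n i w, ?_⟩
    rw [← lift_mk, ← hZ', hw, Pi.mulSingle_eq_same]
  have hsame : ∀ i w, FreeGroup.lift (X' i) w = 1 ↔ FreeGroup.lift (X i) w = 1 := by
    intro i w
    by_contra hcon
    refine hB' i (X' i) (hX' i) ?_ ⟨w, hcon⟩
    intro v hv
    have h1 := hC (inj n i v) (Set.mem_iUnion.2 ⟨i, v, hv, rfl⟩)
    rw [hZ', lift_mk_inj, lift_mk_inj, Pi.mulSingle_eq_one_iff, Pi.mulSingle_eq_one_iff] at h1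
    exact h1
  obtain ⟨w, hw⟩ := hD
  apply hw
  rw [hZ', lift_mk_one, lift_mk_one]
  exact forall_congr' fun i => hsame i _

/-- one factor is enough -/
theorem acc_mk (X : ∀ i, Fin (n i) → G i) (hX : ∀ i, Gen (X i)) (i : ι) (h : Acc (X i)) :
    Acc (mk X) := by
  intro B hB
  obtain ⟨Y, h1, h2, w, hw⟩ := h (pro n i '' B) (hB.image _)
  let X' : ∀ i, Fin (n i) → G i := Function.update X i Y
  have e1 : X' i = Y := Function.update_self i Y X
  have e2 : ∀ l, l ≠ i → X' l = X l := fun l hl => Function.update_of_ne hl Y X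
  have hX' : ∀ l, Gen (X' l) := by
    intro l
    by_cases hl : l = i
    · subst hl; rw [e1]; exact h1
    · rw [e2 l hl]; exact hX l
  refine ⟨mk X', gen_mk hX', ?_, inj n i w, ?_⟩
  · intro v hv
    rw [lift_mk_one, lift_mk_one]
    refine forall_congr' fun l => ?_
    by_cases hl : l = i
    · subst hl; rw [e1]; exact h2 _ ⟨v, hv, rfl⟩
    · rw [e2 l hl]
  · rw [lift_mk_inj, lift_mk_inj, Pi.mulSingle_eq_one_iff, Pi.mulSingle_eq_one_iff, e1]
    exact hw

/-- condensed products -/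
theorem condensed_pi_iff (hfg : ∀ i, Group.FG (G i)) (hP : ∀ i, Prim (G i))
    (hN : ∀ i, Nontrivial (G i)) : Condensed (∀ i, G i) ↔ ∃ i, Condensed (G i) := by
  choose n X hn hX using fun i => @exists_gen (G i) _ (hfg i)
  constructor
  · intro h
    rw [condensed_iff] at h
    obtain ⟨h1, h2⟩ := h
    obtain ⟨m, Z, hm, hZ⟩ := @exists_gen (∀ i, G i) _ h1
    obtain ⟨i, hi⟩ := exists_acc X hX hP hN
      (acc_transfer Z (mk X) hZ (gen_mk hX) (h2 m Z hm hZ))
    refine ⟨i, ?_⟩
    rw [condensed_iff]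
    exact ⟨hfg i, fun k W hk hW => acc_transfer (X i) W (hX i) hW hi⟩
  · rintro ⟨i, hi⟩
    rw [condensed_iff] at hi ⊢
    have hacc : Acc (mk X) := acc_mk X hX i (hi.2 _ _ (hn i) (hX i))
    exact ⟨fg_of_gen (mk X) (gen_mk hX),
      fun k W hk hW => acc_transfer (mk X) W (gen_mk hX) hW hacc⟩

end Pool.Agent.T9h94.PI
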