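import Pool.Agent.T9h94.PI.Prod
import Mathlib.GroupTheory.NoncommCoprod

set_option autoImplicit false

/-! # Direct products of centreless directly indecomposable groups: corollaries -/

namespace Pool.Agent.T9h94.PI

open Pool.Agent.T9h94.CZ Pool.Agent.H67R3.CondDefs

/-- centreless directly indecomposable groups (external form) -/
theorem prim_of {P : Type} [Group P] (hc : Subgroup.center P = ⊥)
    (hd : ∀ (A B : Type) [Group A] [Group B], Nonempty (P ≃* A × B) →
      Subsingleton A ∨ Subsingleton B) : Prim P := by
  intro A B hAB htop
  have hdis : Disjoint A B := by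
    rw [disjoint_iff_inf_le]
    intro x hx
    rw [← hc, Subgroup.mem_center_iff]
    have h1 : (⊤ : Subgroup P) ≤ Subgroup.centralizer {x} := by
      rw [← htop, sup_le_iff]
      constructor
      · intro a ha
        rw [Subgroup.mem_centralizer_iff]
        rintro _ rfl
        exact (hAB a ha _ hx.2).symm
      · intro b hb
        rw [Subgroup.mem_centralizer_iff]
        rintro _ rfl
        exact hAB _ hx.1 b hb
    intro g
    exact ((Subgroup.mem_centralizer_iff.1 (h1 (Subgroup.mem_top g))) x rfl).symm
  have hcom : ∀ (m : A) (n : B), Commute (A.subtype m) (B.subtype n) := fun m n =>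
    hAB m m.2 n n.2
  have hinj : Function.Injective (MonoidHom.noncommCoprod A.subtype B.subtype hcom) := by
    rw [MonoidHom.noncommCoprod_injective]
    refine ⟨A.subtype_injective, B.subtype_injective, ?_⟩
    rw [A.range_subtype, B.range_subtype]
    exact hdis
  have hsurj : Function.Surjective (MonoidHom.noncommCoprod A.subtype B.subtype hcom) := by
    rw [← MonoidHom.range_eq_top, MonoidHom.noncommCoprod_range, A.range_subtype,
      B.range_subtype, htop]
  have e : P ≃* A × B := (MulEquiv.ofBijective _ ⟨hinj, hsurj⟩).symm
  rcases hd A B ⟨e⟩ with h | h
  · left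
    rw [Subgroup.eq_bot_iff_forall]
    intro x hx
    have := @Subsingleton.elim _ h (⟨x, hx⟩ : A) 1
    exact congrArg Subtype.val this
  · right
    rw [Subgroup.eq_bot_iff_forall]
    intro x hx
    have := @Subsingleton.elim _ h (⟨x, hx⟩ : B) 1
    exact congrArg Subtype.val this

/-- the family `G, H` -/
def Fam (G H : Type) : Bool → Type
  | false => G
  | true => H

instance famGroup (G H : Type) [Group G] [Group H] : ∀ b, Group (Fam G H b)
  | false => inferInstanceAs (Group G)
  | true => inferInstanceAs (Group H)

/-- the product of two groups as a product over `Bool` -/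
def famEquiv (G H : Type) [Group G] [Group H] : (∀ b : Bool, Fam G H b) ≃* G × H where
  toFun f := (f false, f true)
  invFun p := fun b => match b with
    | false => p.1
    | true => p.2
  left_inv f := by
    funext b
    cases b <;> rfl
  right_inv p := rfl
  map_mul' f g := rfl

theorem condensed_two (G H : Type) [Group G] [Group H] (h1 : Group.FG G) (h2 : Group.FG H)
    (p1 : Prim G) (p2 : Prim H) (n1 : Nontrivial G) (n2 : Nontrivial H) :
    Condensed (G × H) ↔ (Condensed G ∨ Condensed H) := by
  have key := @condensed_pi_iff Bool _ _ (Fam G H) _
    (fun b => match b with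
      | false => h1
      | true => h2)
    (fun b => match b with
      | false => p1
      | true => p2)
    (fun b => match b with
      | false => n1
      | true => n2)
  have e := famEquiv G H
  constructor
  · intro h
    obtain ⟨b, hb⟩ := key.1 (condensed_congr e.symm h)
    cases b with
    | false => exact Or.inl hb
    | true => exact Or.inr hb
  · intro h
    refine condensed_congr e (key.2 ?_)
    rcases h with h | h
    · exact ⟨false, h⟩
    · exact ⟨true, h⟩

end Pool.Agent.T9h94.PI
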